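import Pool.Agent.Q255.L2.StmL
import Pool.Agent.Q13.EP.REC

set_option autoImplicit false

/-!
# Project L2L (helper255), job LA: the Lindelof bound for all members, almost surely
-/

namespace Pool.Agent.Q79.L2

open Filter Topology MeasureTheory Finset
open Pool.Agent.Q255.IC Pool.Agent.Q255.IR Pool.Agent.Q255.EP Pool.Agent.Q255.L2
open scoped ENNReal

theorem card_bd (A : ℝ) (m : ℕ) : ∃ A' : ℝ, ∀ J N : ℕ, (N : ℝ) ≤ A * ((2 : ℝ) ^ J) ^ A →
    ((N * ((32 ^ J + 1) * (((m + 1) * 32 ^ J + 1) * 2)) : ℕ) : ℝ) ≤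
      Real.exp (A' * ((J : ℝ) + 1)) := by
  set B := max A 1 with hB
  have hB1 : 1 ≤ B := le_max_right _ _
  have hBA : A ≤ B := le_max_left _ _
  have hm : (0 : ℝ) ≤ m := Nat.cast_nonneg m
  have hl1 : 1 ≤ 4 * ((m : ℝ) + 2) * B := by nlinarith
  set l := Real.log (4 * ((m : ℝ) + 2) * B) with hl
  have hl0 : 0 ≤ l := Real.log_nonneg hl1
  have hlog2 : 0 < Real.log 2 := Real.log_pos (by norm_num)
  have hlog32 : 0 < Real.log 32 := Real.log_pos (by norm_num)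
  refine ⟨l + B * Real.log 2 + 2 * Real.log 32, fun J N hN => ?_⟩
  have hJ : (0 : ℝ) ≤ J := Nat.cast_nonneg J
  have h2J : (1 : ℝ) ≤ 2 ^ J := one_le_pow₀ (by norm_num)
  have h32J : (1 : ℝ) ≤ 32 ^ J := one_le_pow₀ (by norm_num)
  have h1 : (N : ℝ) ≤ B * ((2 : ℝ) ^ J) ^ B := by
    refine hN.trans (mul_le_mul hBA (Real.rpow_le_rpow_of_exponent_le h2J hBA) (by positivity)
      (by linarith))
  have h2 : ((2 : ℝ) ^ J) ^ B = Real.exp (B * Real.log 2 * J) := by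
    rw [Real.rpow_def_of_pos (by positivity), Real.log_pow]
    congr 1
    ring
  have h3 : ((32 : ℝ) ^ J) = Real.exp (Real.log 32 * J) := by
    rw [mul_comm, Real.exp_nat_mul, Real.exp_log (by norm_num)]
  have h4 : 4 * ((m : ℝ) + 2) * B = Real.exp l := by
    rw [hl, Real.exp_log (by linarith)]
  push_cast
  calc (N : ℝ) * ((32 ^ J + 1) * (((m + 1) * 32 ^ J + 1) * 2))
      ≤ (B * ((2 : ℝ) ^ J) ^ B) * ((2 * 32 ^ J) * (((m + 2) * 32 ^ J) * 2)) := by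
        refine mul_le_mul h1 (mul_le_mul (by linarith) (mul_le_mul_of_nonneg_right (by linarith)
          (by norm_num)) (by positivity) (by positivity)) (by positivity) (by positivity)
    _ = 4 * ((m : ℝ) + 2) * B * ((2 : ℝ) ^ J) ^ B * (32 ^ J * 32 ^ J) := by ring
    _ = Real.exp (l + B * Real.log 2 * J + (Real.log 32 * J + Real.log 32 * J)) := by
        rw [h4, h2, h3, ← Real.exp_add, ← Real.exp_add, ← Real.exp_add]
    _ ≤ Real.exp ((l + B * Real.log 2 + 2 * Real.log 32) * ((J : ℝ) + 1)) := by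
        rw [Real.exp_le_exp]
        have h5 : 0 ≤ l * J := by positivity
        have h6 : 0 ≤ B * Real.log 2 := by positivity
        nlinarith

theorem exists_scale1 (z : ℝ) (hz : 1 ≤ z) : ∃ J : ℕ, z ≤ 2 ^ J ∧ (2 : ℝ) ^ J ≤ 2 * z := by
  obtain ⟨n, h1, h2⟩ := exists_nat_pow_near hz (by norm_num : (1 : ℝ) < 2)
  refine ⟨n + 1, h2.le, ?_⟩
  rw [pow_succ]
  linarith

/-- cosine or sine -/
noncomputable def tr (b : Bool) (x : ℝ) : ℝ := if b then Real.cos x else Real.sin x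

theorem tr_le (b : Bool) (x : ℝ) : |tr b x| ≤ 1 := by
  unfold tr
  cases b
  · exact Real.abs_sin_le_one x
  · exact Real.abs_cos_le_one x

theorem cos_lip (x y : ℝ) : |Real.cos x - Real.cos y| ≤ |x - y| := by
  rw [Real.cos_sub_cos, abs_mul, abs_mul]
  have h1 := Real.abs_sin_le_one ((x + y) / 2)
  have h2 : |Real.sin ((x - y) / 2)| ≤ |(x - y) / 2| := Real.abs_sin_le_abs
  have h3 : |(x - y) / 2| = |x - y| / 2 := by rw [abs_div, abs_two]
  have h4 : |(-2 : ℝ)| = 2 := by norm_num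
  rw [h4]
  have h5 := abs_nonneg (Real.sin ((x + y) / 2))
  have h6 := abs_nonneg (Real.sin ((x - y) / 2))
  rw [h3] at h2
  nlinarith

theorem sin_lip (x y : ℝ) : |Real.sin x - Real.sin y| ≤ |x - y| := by
  rw [Real.sin_sub_sin, abs_mul, abs_mul]
  have h1 := Real.abs_cos_le_one ((x + y) / 2)
  have h2 : |Real.sin ((x - y) / 2)| ≤ |(x - y) / 2| := Real.abs_sin_le_abs
  have h3 : |(x - y) / 2| = |x - y| / 2 := by rw [abs_div, abs_two]
  have h4 : |(2 : ℝ)| = 2 := by norm_num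
  rw [h4]
  have h5 := abs_nonneg (Real.cos ((x + y) / 2))
  have h6 := abs_nonneg (Real.sin ((x - y) / 2))
  rw [h3] at h2
  nlinarith

theorem tr_lip (b : Bool) (x y : ℝ) : |tr b x - tr b y| ≤ |x - y| := by
  unfold tr
  cases b
  · exact sin_lip x y
  · exact cos_lip x y

/-- the weights -/
noncomputable def wt (a : ℕ → ℝ) (N : ℕ) (t : ℝ) (b : Bool) (n : ℕ) : ℝ :=
  if n ∈ Icc 1 N then a n / √(n : ℝ) * tr b (t * Real.log n) else 0

theorem wt_le (a : ℕ → ℝ) (N : ℕ) (t : ℝ) (b : Bool) (n : ℕ) : |wt a N t b n| ≤ |a n| / √(n : ℝ) := by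
  unfold wt
  split_ifs
  · rw [abs_mul, abs_div, abs_of_nonneg (Real.sqrt_nonneg _)]
    exact mul_le_of_le_one_right (by positivity) (tr_le _ _)
  · rw [abs_zero]
    positivity

theorem wt_zero (a : ℕ → ℝ) (N : ℕ) (t : ℝ) (b : Bool) {n X : ℕ} (hN : N ≤ X) (hn : X < n) :
    wt a N t b n = 0 := by
  unfold wt
  rw [if_neg]
  rw [mem_Icc]
  omega

theorem cpow_eq {n : ℕ} (hn : 1 ≤ n) (t : ℝ) :
    (n : ℂ) ^ (-(1 / 2 : ℂ) - t * Complex.I) =
      ((1 / √(n : ℝ) * Real.cos (t * Real.log n) : ℝ) : ℂ) -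
        ((1 / √(n : ℝ) * Real.sin (t * Real.log n) : ℝ) : ℂ) * Complex.I := by
  have hn0 : (0 : ℝ) < n := by exact_mod_cast hn
  have hnC : (n : ℂ) ≠ 0 := by exact_mod_cast hn0.ne'
  have hL : Complex.log (n : ℂ) = ((Real.log n : ℝ) : ℂ) := Complex.natCast_log.symm
  rw [Complex.cpow_def_of_ne_zero hnC, hL]
  have e1 : ((Real.log n : ℝ) : ℂ) * (-(1 / 2 : ℂ) - t * Complex.I) =
      ((-(Real.log n / 2) : ℝ) : ℂ) + ((-(t * Real.log n) : ℝ) : ℂ) * Complex.I := by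
    push_cast
    ring
  rw [e1, Complex.exp_add, Complex.exp_mul_I, ← Complex.ofReal_exp, ← Complex.ofReal_cos,
    ← Complex.ofReal_sin, Real.cos_neg, Real.sin_neg]
  have e2 : Real.exp (-(Real.log n / 2)) = 1 / √(n : ℝ) := by
    rw [Real.exp_neg, Real.exp_half, Real.exp_log hn0, one_div]
  rw [e2]
  push_cast
  ring

theorem norm_le (f : ℕ → ℝ) (N : ℕ) (t : ℝ) :
    ‖∑ n ∈ Icc 1 N, ((f n : ℝ) : ℂ) * (n : ℂ) ^ (-(1 / 2 : ℂ) - t * Complex.I)‖ ≤
      |∑ n ∈ Icc 1 N, f n / √(n : ℝ) * tr true (t * Real.log n)| +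
        |∑ n ∈ Icc 1 N, f n / √(n : ℝ) * tr false (t * Real.log n)| := by
  have e : ∑ n ∈ Icc 1 N, ((f n : ℝ) : ℂ) * (n : ℂ) ^ (-(1 / 2 : ℂ) - t * Complex.I) =
      ((∑ n ∈ Icc 1 N, f n / √(n : ℝ) * tr true (t * Real.log n) : ℝ) : ℂ) -
        ((∑ n ∈ Icc 1 N, f n / √(n : ℝ) * tr false (t * Real.log n) : ℝ) : ℂ) * Complex.I := by
    rw [Complex.ofReal_sum, Complex.ofReal_sum, sum_mul, ← sum_sub_distrib]
    refine sum_congr rfl fun n hn => ?_
    rw [cpow_eq (mem_Icc.1 hn).1]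
    unfold tr
    simp only [if_true, Bool.false_eq_true, if_false]
    push_cast
    ring
  rw [e]
  refine (norm_sub_le _ _).trans (le_of_eq ?_)
  rw [norm_mul, Complex.norm_I, mul_one, Complex.norm_real, Complex.norm_real, Real.norm_eq_abs,
    Real.norm_eq_abs]

/-- single coefficients -/
theorem coef_pt {ι : Type} {T : ι → ℝ} {a : ι → ℕ → ℝ} (hT : ∀ i, 1 ≤ T i) {C₁ : ℝ}
    (ha : ∀ (i : ι) (R S : ℕ), 1 ≤ R → 1 ≤ S →
        ∑ s ∈ (Icc 1 S).filter Squarefree, ∑ r ∈ Icc 1 R, a i (r ^ 2 * s) ^ 2 ≤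
          C₁ * ((R : ℝ) * S * T i) ^ (1 : ℝ) * (R * S)) (i : ι) {n : ℕ} (hn : 1 ≤ n) :
    |a i n| ≤ (1 + |C₁|) * (n * T i) := by
  obtain ⟨s, r, hrs, hs⟩ := Nat.sq_mul_squarefree n
  have hs0 : 1 ≤ s := by
    rcases Nat.eq_zero_or_pos s with h | h
    · rw [h, mul_zero] at hrs; omega
    · exact h
  have hr0 : 1 ≤ r := by
    rcases Nat.eq_zero_or_pos r with h | h
    · rw [h] at hrs; simp at hrs; omega
    · exact h
  have h1 := ha i r s hr0 hs0
  rw [Real.rpow_one] at h1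
  have h2 : a i n ^ 2 ≤ ∑ s' ∈ (Icc 1 s).filter Squarefree, ∑ r' ∈ Icc 1 r, a i (r' ^ 2 * s') ^ 2 := by
    have h3 : ∑ r' ∈ Icc 1 r, a i (r' ^ 2 * s) ^ 2 ≤
        ∑ s' ∈ (Icc 1 s).filter Squarefree, ∑ r' ∈ Icc 1 r, a i (r' ^ 2 * s') ^ 2 :=
      single_le_sum (f := fun s' => ∑ r' ∈ Icc 1 r, a i (r' ^ 2 * s') ^ 2)
        (fun _ _ => sum_nonneg fun _ _ => sq_nonneg _)
        (mem_filter.2 ⟨mem_Icc.2 ⟨hs0, le_rfl⟩, hs⟩)
    have h4 : a i (r ^ 2 * s) ^ 2 ≤ ∑ r' ∈ Icc 1 r, a i (r' ^ 2 * s) ^ 2 :=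
      single_le_sum (f := fun r' => a i (r' ^ 2 * s) ^ 2) (fun _ _ => sq_nonneg _)
        (mem_Icc.2 ⟨hr0, le_rfl⟩)
    rw [hrs] at h4
    exact h4.trans h3
  have hTi := hT i
  have hrs' : (r : ℝ) * s ≤ n := by
    have : r * s ≤ n := by
      rw [← hrs]
      exact Nat.mul_le_mul_right _ (by nlinarith)
    exact_mod_cast this
  have hrs0 : (0 : ℝ) ≤ (r : ℝ) * s := by positivity
  have hn1 : (1 : ℝ) ≤ n := by exact_mod_cast hn
  have hc := abs_nonneg C₁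
  have hx1 : 1 ≤ (n : ℝ) * T i := by nlinarith
  have h5 : a i n ^ 2 ≤ ((1 + |C₁|) * (n * T i)) ^ 2 := by
    have g1 : C₁ * ((r : ℝ) * s * T i) * (r * s) ≤ |C₁| * ((n : ℝ) * T i) * (n * T i) := by
      have g2 : (r : ℝ) * s * T i ≤ n * T i := mul_le_mul_of_nonneg_right hrs' (by linarith)
      have g3 : (r : ℝ) * s ≤ n * T i := hrs'.trans (by nlinarith)
      have g0 : 0 ≤ (r : ℝ) * s * T i := by positivity
      calc C₁ * ((r : ℝ) * s * T i) * (r * s) ≤ |C₁| * ((r : ℝ) * s * T i) * (r * s) := by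
            gcongr
            exact le_abs_self _
        _ ≤ |C₁| * ((n : ℝ) * T i) * (n * T i) := by gcongr
    have g4 : |C₁| * ((n : ℝ) * T i) * (n * T i) ≤ ((1 + |C₁|) * (n * T i)) ^ 2 := by
      have g5 : |C₁| ≤ (1 + |C₁|) ^ 2 := by nlinarith
      have g6 : 0 ≤ ((n : ℝ) * T i) ^ 2 := sq_nonneg _
      calc |C₁| * ((n : ℝ) * T i) * (n * T i) = |C₁| * ((n : ℝ) * T i) ^ 2 := by ring
        _ ≤ (1 + |C₁|) ^ 2 * ((n : ℝ) * T i) ^ 2 := mul_le_mul_of_nonneg_right g5 g6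
        _ = _ := by ring
    exact h2.trans (h1.trans (g1.trans g4))
  rw [← sq_abs (a i n)] at h5
  exact (pow_le_pow_iff_left₀ (abs_nonneg _) (by positivity) two_ne_zero).1 h5

theorem la (h : S_ENG2) (h1 : S_LN) : S_LA := by
  classical
  intro ν _ hD ι T a A hFam ha
  obtain ⟨hT, hfin⟩ := hFam
  let W : ℕ → Finset (ℕ → ℝ) := fun J =>
    Finset.image (fun q : ι × ℕ × ℕ × Bool =>
      wt (a q.1) (min q.2.1 (2 ^ J)) ((q.2.2.1 : ℝ) / 16 ^ J - 2 ^ (J + 1)) q.2.2.2)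
      (((hfin (2 ^ J) (one_le_pow₀ (by norm_num))).1.toFinset) ×ˢ (range (32 ^ J + 1) ×ˢ
        (range ((3 + 1) * 32 ^ J + 1) ×ˢ (univ : Finset Bool))))
  have hmain : ∀ᵐ ω ∂ν, ∀ ε : ℝ, 0 < ε → ∃ C : ℝ, ∀ J, ∀ w ∈ W J,
      |∑ n ∈ Finset.Icc 1 (2 ^ J), w n * cm ω n| ≤
        C * (2 : ℝ) ^ ((0 + ε) * J) * √(nn (2 ^ J) w) := by
    obtain ⟨A', hA'⟩ := card_bd A 3
    refine h ν 0 le_rfl zero_le_one (by
      intro ε hε
      have := hD ε hε
      simpa only [zero_add] using this) W A' ?_ ?_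
    · intro J w hw n hn
      obtain ⟨q, _, rfl⟩ := Finset.mem_image.1 hw
      exact wt_zero _ _ _ _ (min_le_right _ _) hn
    · intro J
      have hN := (hfin (2 ^ J) (one_le_pow₀ (by norm_num))).2
      rw [Set.ncard_eq_toFinset_card _ (hfin (2 ^ J) (one_le_pow₀ (by norm_num))).1] at hN
      refine le_trans ?_ (hA' J _ hN)
      refine Nat.cast_le.2 (Finset.card_image_le.trans (le_of_eq ?_))
      rw [card_product, card_product, card_product, card_range, card_range, card_univ,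
        Fintype.card_bool]
  filter_upwards [hmain] with ω hω ε hε
  set e := ε / 4 with he
  have he0 : 0 < e := by positivity
  obtain ⟨C₂, hC₂⟩ := hω e he0
  obtain ⟨CN, hCN0, hCN⟩ := h1 e he0
  obtain ⟨C₁, hC₁⟩ := ha 1 one_pos
  obtain ⟨C₄, hC₄⟩ := ha e he0
  have hcoef : ∀ (i : ι) {n : ℕ}, 1 ≤ n → |a i n| ≤ (1 + |C₁|) * (n * T i) :=
    fun i n hn => coef_pt hT hC₁ i hn
  set K : ℝ := 1 + |C₁| with hK
  have hK0 : 0 ≤ K := by positivity
  set C₃ : ℝ := |C₂| * √(CN * |C₄| * 8 ^ e) with hC₃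
  have hC₃0 : 0 ≤ C₃ := by positivity
  -- the net
  have hnet : ∀ (i : ι) (J N q : ℕ) (b : Bool), T i ≤ 2 ^ J → N ≤ 2 ^ J → q < (3 + 1) * 32 ^ J + 1 →
      |∑ n ∈ Icc 1 (2 ^ J), wt (a i) N ((q : ℝ) / 16 ^ J - 2 ^ (J + 1)) b n * cm ω n| ≤
        C₃ * (2 : ℝ) ^ (ε * J) := by
    intro i J N q b hTJ hNJ hq
    have hTi := hT i
    have hmem : wt (a i) N ((q : ℝ) / 16 ^ J - 2 ^ (J + 1)) b ∈ W J := by
      refine Finset.mem_image.2 ⟨(i, N, q, b), ?_, ?_⟩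
      · rw [mem_product, mem_product, mem_product, Set.Finite.mem_toFinset, mem_range, mem_range]
        refine ⟨hTJ, ?_, hq, mem_univ _⟩
        have : 2 ^ J ≤ 32 ^ J := Nat.pow_le_pow_left (by norm_num) J
        show N < 32 ^ J + 1
        omega
      · show wt (a i) (min N (2 ^ J)) _ _ = _
        rw [min_eq_left hNJ]
    have h5 := hC₂ J _ hmem
    have h2J : (1 : ℝ) ≤ 2 ^ J := one_le_pow₀ (by norm_num)
    have hB : ∀ R S : ℕ, 1 ≤ R → 1 ≤ S → R ^ 2 * S ≤ 8 * 2 ^ J →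
        ∑ s ∈ (Icc 1 S).filter Squarefree, ∑ r ∈ Icc 1 R, a i (r ^ 2 * s) ^ 2 ≤
          |C₄| * (8 * 4 ^ J : ℝ) ^ e * (R * S) := by
      intro R S hR hS hRS
      refine (hC₄ i R S hR hS).trans ?_
      have hR1 : (1 : ℝ) ≤ R := by exact_mod_cast hR
      have hRS' : (R : ℝ) ^ 2 * S ≤ 8 * 2 ^ J := by exact_mod_cast hRS
      have g1 : (R : ℝ) * S * T i ≤ 8 * 4 ^ J := by
        have g2 : (R : ℝ) * S ≤ (R : ℝ) ^ 2 * S :=
          mul_le_mul_of_nonneg_right (by nlinarith) (Nat.cast_nonneg _)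
        calc (R : ℝ) * S * T i ≤ (8 * 2 ^ J) * 2 ^ J :=
              mul_le_mul (g2.trans hRS') hTJ (by linarith) (by positivity)
          _ = 8 * 4 ^ J := by
              rw [mul_assoc, ← mul_pow]
              norm_num
      have g0 : 0 ≤ (R : ℝ) * S * T i := by positivity
      have g3 : ((R : ℝ) * S * T i) ^ e ≤ (8 * 4 ^ J : ℝ) ^ e := Real.rpow_le_rpow g0 g1 he0.le
      have g4 : 0 ≤ ((R : ℝ) * S * T i) ^ e := Real.rpow_nonneg g0 _
      have g5 : (0 : ℝ) ≤ (R : ℝ) * S := by positivity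
      calc C₄ * ((R : ℝ) * S * T i) ^ e * (R * S) ≤ |C₄| * ((R : ℝ) * S * T i) ^ e * (R * S) := by
            gcongr
            exact le_abs_self _
        _ ≤ _ := by gcongr
    have h6 := hCN (2 ^ J) (|C₄| * (8 * 4 ^ J : ℝ) ^ e) (a i)
      (wt (a i) N ((q : ℝ) / 16 ^ J - 2 ^ (J + 1)) b) Nat.one_le_two_pow (by positivity) hB
      (fun n => wt_le _ _ _ _ _) (fun n hn => wt_zero _ _ _ _ hNJ hn)
    have h7 : CN * (((2 ^ J : ℕ) : ℝ)) ^ e * (|C₄| * (8 * 4 ^ J : ℝ) ^ e) =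
        (CN * |C₄| * 8 ^ e) * (2 : ℝ) ^ (3 * e * J) := by
      rw [Real.mul_rpow (by norm_num) (by positivity)]
      push_cast
      have g1 : ((2 : ℝ) ^ J) ^ e = (2 : ℝ) ^ (e * J) := by
        rw [← Real.rpow_natCast, ← Real.rpow_mul two_pos.le, mul_comm]
      have g2 : ((4 : ℝ) ^ J) ^ e = (2 : ℝ) ^ (2 * e * J) := by
        have : (4 : ℝ) ^ J = (2 : ℝ) ^ (2 * J) := by rw [pow_mul]; norm_num
        rw [this, ← Real.rpow_natCast, ← Real.rpow_mul two_pos.le]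
        congr 1
        push_cast
        ring
      rw [g1, g2]
      have g3 : (2 : ℝ) ^ (3 * e * J) = (2 : ℝ) ^ (e * J) * (2 : ℝ) ^ (2 * e * J) := by
        rw [← Real.rpow_add two_pos]
        congr 1
        ring
      rw [g3]
      ring
    rw [h7] at h6
    have h8 : √(nn (2 ^ J) (wt (a i) N ((q : ℝ) / 16 ^ J - 2 ^ (J + 1)) b)) ≤
        √(CN * |C₄| * 8 ^ e) * (2 : ℝ) ^ (3 * e / 2 * J) := by
      refine (Real.sqrt_le_sqrt h6).trans (le_of_eq ?_)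
      rw [Real.sqrt_mul (by positivity)]
      congr 1
      rw [Real.sqrt_eq_rpow, ← Real.rpow_mul two_pos.le]
      congr 1
      ring
    refine h5.trans ?_
    have hp : (0 : ℝ) ≤ (2 : ℝ) ^ ((0 + e) * (J : ℝ)) := Real.rpow_nonneg two_pos.le _
    calc C₂ * (2 : ℝ) ^ ((0 + e) * (J : ℝ)) *
          √(nn (2 ^ J) (wt (a i) N ((q : ℝ) / 16 ^ J - 2 ^ (J + 1)) b))
        ≤ |C₂| * (2 : ℝ) ^ ((0 + e) * (J : ℝ)) *
          (√(CN * |C₄| * 8 ^ e) * (2 : ℝ) ^ (3 * e / 2 * J)) := by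
          refine mul_le_mul (mul_le_mul_of_nonneg_right (le_abs_self _) hp) h8 (Real.sqrt_nonneg _)
            (by positivity)
      _ = C₃ * (2 : ℝ) ^ ((0 + e) * (J : ℝ) + 3 * e / 2 * J) := by
          rw [hC₃, Real.rpow_add two_pos]
          ring
      _ ≤ C₃ * (2 : ℝ) ^ (ε * J) := by
          refine mul_le_mul_of_nonneg_left ?_ hC₃0
          refine Real.rpow_le_rpow_of_exponent_le (by norm_num) ?_
          have hJ0 : (0 : ℝ) ≤ J := Nat.cast_nonneg J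
          have : ε = 4 * e := by rw [he]; ring
          rw [this]
          nlinarith [mul_nonneg he0.le hJ0]
  refine ⟨2 * (C₃ + K) * 2 ^ ε, fun i N t hN => ?_⟩
  have hTi := hT i
  have hN1 : (1 : ℝ) ≤ N := by exact_mod_cast hN
  have ht0 := abs_nonneg t
  set z : ℝ := (N : ℝ) * T i * (1 + |t|) with hz
  have hNT : 1 ≤ (N : ℝ) * T i := by nlinarith
  have hz1 : 1 ≤ z := by rw [hz]; nlinarith
  obtain ⟨J, hJ1, hJ2⟩ := exists_scale1 z hz1
  have hTJ : T i ≤ 2 ^ J := by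
    refine le_trans ?_ hJ1
    rw [hz]
    have : T i ≤ (N : ℝ) * T i := by nlinarith
    nlinarith
  have hNJR : (N : ℝ) ≤ 2 ^ J := by
    refine le_trans ?_ hJ1
    rw [hz]
    have : (N : ℝ) ≤ (N : ℝ) * T i := by nlinarith
    nlinarith
  have hNJ : N ≤ 2 ^ J := by exact_mod_cast hNJR
  have htJ : |t| ≤ 2 ^ J := by
    refine le_trans ?_ hJ1
    rw [hz]
    nlinarith
  -- the point of the net
  set q : ℕ := ⌊(t + 2 ^ (J + 1)) * 16 ^ J⌋₊ with hq
  have h16 : (0 : ℝ) < 16 ^ J := by positivity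
  have ht := abs_le.1 htJ
  have h2J : (1 : ℝ) ≤ 2 ^ J := one_le_pow₀ (by norm_num)
  have hpos : 0 ≤ (t + 2 ^ (J + 1)) * 16 ^ J := by
    refine mul_nonneg ?_ h16.le
    rw [pow_succ]
    linarith [ht.1]
  have hq1 : (q : ℝ) ≤ (t + 2 ^ (J + 1)) * 16 ^ J := Nat.floor_le hpos
  have hq2 : (t + 2 ^ (J + 1)) * 16 ^ J < q + 1 := Nat.lt_floor_add_one _
  set t' : ℝ := (q : ℝ) / 16 ^ J - 2 ^ (J + 1) with ht'
  have hqlt : q < (3 + 1) * 32 ^ J + 1 := by
    have g1 : (q : ℝ) ≤ 3 * 32 ^ J := by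
      refine hq1.trans ?_
      have g2 : (32 : ℝ) ^ J = 2 ^ J * 16 ^ J := by rw [← mul_pow]; norm_num
      rw [g2, ← mul_assoc]
      refine mul_le_mul_of_nonneg_right ?_ h16.le
      rw [pow_succ]
      linarith [ht.2]
    have g3 : q ≤ 3 * 32 ^ J := by exact_mod_cast g1
    omega
  have hdist : |t - t'| ≤ 1 / 16 ^ J := by
    have g1 : t - t' = ((t + 2 ^ (J + 1)) * 16 ^ J - q) / 16 ^ J := by
      rw [ht']
      field_simp
      ring
    rw [g1, abs_div, abs_of_pos h16]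
    refine div_le_div_of_nonneg_right ?_ h16.le
    rw [abs_le]
    constructor <;> linarith
  -- one of the two sums
  have hone : ∀ b : Bool, |∑ n ∈ Icc 1 N, (a i n * cm ω n) / √(n : ℝ) * tr b (t * Real.log n)| ≤
      C₃ * (2 : ℝ) ^ (ε * J) + K := by
    intro b
    have g1 := hnet i J N q b hTJ hNJ hqlt
    rw [← ht'] at g1
    have g2 : ∑ n ∈ Icc 1 (2 ^ J), wt (a i) N t' b n * cm ω n =
        ∑ n ∈ Icc 1 N, (a i n * cm ω n) / √(n : ℝ) * tr b (t' * Real.log n) := by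
      rw [← sum_subset (Icc_subset_Icc le_rfl hNJ) (fun n _ hn2 => by
        unfold wt
        rw [if_neg hn2, zero_mul])]
      refine sum_congr rfl fun n hn => ?_
      unfold wt
      rw [if_pos hn]
      ring
    rw [g2] at g1
    have g3 : |∑ n ∈ Icc 1 N, (a i n * cm ω n) / √(n : ℝ) * tr b (t * Real.log n) -
        ∑ n ∈ Icc 1 N, (a i n * cm ω n) / √(n : ℝ) * tr b (t' * Real.log n)| ≤ K := by
      rw [← sum_sub_distrib]
      refine (abs_sum_le_sum_abs _ _).trans ?_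
      have g4 : ∀ n ∈ Icc 1 N, |(a i n * cm ω n) / √(n : ℝ) * tr b (t * Real.log n) -
          (a i n * cm ω n) / √(n : ℝ) * tr b (t' * Real.log n)| ≤ K * (2 ^ J * 2 ^ J * 2 ^ J) * (1 / 16 ^ J) := by
        intro n hn
        rw [mem_Icc] at hn
        have hn1 : (1 : ℝ) ≤ n := by exact_mod_cast hn.1
        have hnN : (n : ℝ) ≤ 2 ^ J := le_trans (by exact_mod_cast hn.2) hNJR
        rw [← mul_sub, abs_mul, abs_div, abs_mul, Pool.Agent.Q13.EP.abs_cm, mul_one,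
          abs_of_nonneg (Real.sqrt_nonneg _)]
        have e1 : |a i n| / √(n : ℝ) ≤ K * (2 ^ J * 2 ^ J) := by
          have e2 : 1 ≤ √(n : ℝ) := Real.one_le_sqrt.2 hn1
          calc |a i n| / √(n : ℝ) ≤ |a i n| := div_le_self (abs_nonneg _) e2
            _ ≤ K * (n * T i) := hcoef i hn.1
            _ ≤ K * (2 ^ J * 2 ^ J) := by gcongr
        have e3 : |tr b (t * Real.log n) - tr b (t' * Real.log n)| ≤ 2 ^ J * (1 / 16 ^ J) := by
          refine (tr_lip _ _ _).trans ?_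
          rw [← sub_mul, abs_mul, mul_comm]
          have e4 : |Real.log n| ≤ 2 ^ J := by
            rw [abs_of_nonneg (Real.log_nonneg hn1)]
            exact (Real.log_le_self (by linarith)).trans hnN
          exact mul_le_mul e4 hdist (abs_nonneg _) (by positivity)
        calc |a i n| / √(n : ℝ) * |tr b (t * Real.log n) - tr b (t' * Real.log n)|
            ≤ K * (2 ^ J * 2 ^ J) * (2 ^ J * (1 / 16 ^ J)) :=
              mul_le_mul e1 e3 (abs_nonneg _) (by positivity)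
          _ = _ := by ring
      refine (sum_le_sum g4).trans ?_
      rw [sum_const, Nat.card_Icc, Nat.add_sub_cancel, nsmul_eq_mul]
      have g5 : (16 : ℝ) ^ J = 2 ^ J * (2 ^ J * 2 ^ J * 2 ^ J) := by
        rw [← mul_pow, ← mul_pow, ← mul_pow]
        norm_num
      calc (N : ℝ) * (K * (2 ^ J * 2 ^ J * 2 ^ J) * (1 / 16 ^ J))
          ≤ 2 ^ J * (K * (2 ^ J * 2 ^ J * 2 ^ J) * (1 / 16 ^ J)) := by gcongr
        _ = K := by
            rw [g5]
            field_simp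
    have g6 := abs_sub_abs_le_abs_sub
      (∑ n ∈ Icc 1 N, (a i n * cm ω n) / √(n : ℝ) * tr b (t * Real.log n))
      (∑ n ∈ Icc 1 N, (a i n * cm ω n) / √(n : ℝ) * tr b (t' * Real.log n))
    linarith
  have hfin1 := norm_le (fun n => a i n * cm ω n) N t
  have ht1 := hone true
  have ht2 := hone false
  have hpow : (2 : ℝ) ^ (ε * J) ≤ 2 ^ ε * z ^ ε := by
    calc (2 : ℝ) ^ (ε * J) = ((2 : ℝ) ^ J) ^ ε := by
          rw [← Real.rpow_natCast, ← Real.rpow_mul two_pos.le, mul_comm]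
      _ ≤ (2 * z) ^ ε := Real.rpow_le_rpow (by positivity) hJ2 hε.le
      _ = 2 ^ ε * z ^ ε := Real.mul_rpow two_pos.le (by linarith)
  have hone' : (1 : ℝ) ≤ 2 ^ ε * z ^ ε := by
    have g1 : (1 : ℝ) ≤ (2 : ℝ) ^ ε := Real.one_le_rpow (by norm_num) hε.le
    have g2 : (1 : ℝ) ≤ z ^ ε := Real.one_le_rpow hz1 hε.le
    exact one_le_mul_of_one_le_of_one_le g1 g2
  calc ‖∑ n ∈ Icc 1 N, ((a i n * cm ω n : ℝ) : ℂ) * (n : ℂ) ^ (-(1 / 2 : ℂ) - t * Complex.I)‖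
      ≤ 2 * (C₃ * (2 : ℝ) ^ (ε * J) + K) := by linarith
    _ ≤ 2 * (C₃ * (2 ^ ε * z ^ ε) + K * (2 ^ ε * z ^ ε)) := by
        have g1 := mul_le_mul_of_nonneg_left hpow hC₃0
        have g2 := mul_le_mul_of_nonneg_left hone' hK0
        linarith
    _ = 2 * (C₃ + K) * 2 ^ ε * z ^ ε := by ring

end Pool.Agent.Q79.L2
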